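import Pool.Agent.helper97.GD.AllB

set_option autoImplicit false

/-!
# Balanced factors of Fermat numbers have no short arithmetic description

`F = 2 ^ (2 ^ m) + 1`. In a bounded number of rounds of operations (`Op`) from all integers with at most `2 ^ m / q` binary digits one obtains only integers
whose greatest common divisor with `F`, or its quotient with `F`, is at most `F ^ (1 / d)`.
-/

namespace Pool.Agent.Results.MP_37e5fa_nt.BoundedPrograms

open Pool.Agent.GD

theorem result :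
    ∀ s d : ℕ, 0 < d → ∃ q m₀ : ℕ, 0 < q ∧ ∀ m : ℕ, m₀ ≤ m → ∀ z ∈ Cx m q s s,
      (Int.gcd z (2 ^ (2 ^ m) + 1)) ^ d ≤ 2 ^ (2 ^ m) + 1 ∨
      ((2 ^ (2 ^ m) + 1) / Int.gcd z (2 ^ (2 ^ m) + 1)) ^ d ≤ 2 ^ (2 ^ m) + 1 :=
  A_BCP

end Pool.Agent.Results.MP_37e5fa_nt.BoundedPrograms
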