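import Pool.Agent.helper33.PG.FIN
import Pool.Agent.helper69.FQ.Order
import Pool.Agent.helper2.Fermat.SharpPow

namespace Pool.Agent.Results.MP_37e5fa_nt.MultiplicityGap

/-- Let `F = 2 ^ (2 ^ m) + 1`, `m ≥ 1`.
(1) If `D = k * 2 ^ n + 1 ≠ F`, `k` odd, divides `F`, then `4 n < 2 ^ m` and `D ^ n < k ^ (2 ^ m)`.
(2) If the order of one unit modulo `F` is divisible by `2 ^ t`, `4 t ≥ 2 ^ m`, then `F` is prime.
(3) If `D = k * 2 ^ n + 1`, `k, n, e ≥ 1`, `D ^ e ∣ F` and `2 ^ m = q n + r`, `0 ≤ r < n`, then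
`D ^ (e - 1) ≤ 2 ^ (r + 2) * (2 ^ e * C(2 q, e)) ^ 2 * k ^ q`.
(4) If `D > 1`, `D ^ e ∣ F`, `x ≥ 0` and `D ≤ 2 ^ ((1 + x) m)`, then
`D ^ e ≤ 2 ^ ((x + 6 / m) 2 ^ m + 4 m + 2)`.
(5) For a finite set `P` of primes `≤ 2 ^ ((1 + x) m)`, the largest divisor of `F` composed of the primes of `P`
is at most `2 ^ (|P| ((x + 6 / m) 2 ^ m + 4 m + 2))`. -/
theorem result (m : ℕ) (hm : 1 ≤ m) :
    (∀ k n : ℕ, Odd k → k * 2 ^ n + 1 ∣ 2 ^ 2 ^ m + 1 → k * 2 ^ n + 1 ≠ 2 ^ 2 ^ m + 1 →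
      4 * n < 2 ^ m ∧ (k * 2 ^ n + 1) ^ n < k ^ 2 ^ m) ∧
    (∀ (a : (ZMod (2 ^ 2 ^ m + 1))ˣ) (t : ℕ), 2 ^ m ≤ 4 * t → 2 ^ t ∣ orderOf a →
      Nat.Prime (2 ^ 2 ^ m + 1)) ∧
    (∀ k n e : ℕ, 0 < k → 0 < n → 1 ≤ e → (k * 2 ^ n + 1) ^ e ∣ 2 ^ 2 ^ m + 1 →
      (k * 2 ^ n + 1) ^ (e - 1) ≤
        2 ^ (2 ^ m % n + 2) * (2 ^ e * (2 * (2 ^ m / n)).choose e) ^ 2 * k ^ (2 ^ m / n)) ∧
    (∀ (D e : ℕ) (x : ℝ), 1 < D → D ^ e ∣ 2 ^ 2 ^ m + 1 → 0 ≤ x →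
      (D : ℝ) ≤ 2 ^ ((1 + x) * m) → (D : ℝ) ^ e ≤ 2 ^ ((x + 6 / m) * 2 ^ m + 4 * m + 2)) ∧
    (∀ (P : Finset ℕ) (x : ℝ), 0 ≤ x → (∀ p ∈ P, p.Prime ∧ (p : ℝ) ≤ 2 ^ ((1 + x) * m)) →
      ((∏ p ∈ P, p ^ (2 ^ 2 ^ m + 1).factorization p : ℕ) : ℝ) ≤
        2 ^ ((P.card : ℝ) * ((x + 6 / m) * 2 ^ m + 4 * m + 2))) := by
  refine ⟨?_, fun a t ht ha => Pool.Agent.helper69.FQ.prime_of_order m t a ht ha, ?_, ?_, ?_⟩
  · intro k n hk hd hne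
    have hkpos : 0 < k := hk.pos
    have hk1 : 1 < k := by
      rcases Nat.lt_or_ge 1 k with h | h
      · exact h
      · exfalso
        have h1 : k = 1 := by omega
        rw [h1, one_mul] at hd hne
        have := Pool.Agent.helper69.FQ.no_pow_add_one m n hd
        rw [this] at hne
        exact hne rfl
    refine ⟨?_, Pool.Agent.helper2.Fermat.sharp_pow m k n hk hk1 hd⟩
    by_contra hge
    push Not at hge
    have hD1 : 1 < k * 2 ^ n + 1 := by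
      have := Nat.mul_pos hkpos (Nat.two_pow_pos n)
      omega
    have hmod : k * 2 ^ n + 1 ≡ 1 [MOD 2 ^ n] := by
      have h2 : k * 2 ^ n + 1 ≡ 0 + 1 [MOD 2 ^ n] :=
        Nat.ModEq.add_right 1 ((Nat.modEq_zero_iff_dvd).2 ⟨k, by ring⟩)
      rwa [zero_add] at h2
    exact hne (Pool.Agent.helper69.FQ.quarter m n (k * 2 ^ n + 1) hd hD1 hge hmod)
  · intro k n e hk hn he hd
    exact (Pool.Agent.PG.all_GEN (2 ^ m) n k e hk hn he hd).2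
  · intro D e x hD hd hx hDx
    have h := Pool.Agent.PG.all_EXQ (2 ^ m) m D e x (by positivity) hm (dvd_refl _) hD hd hx hDx
    push_cast at h
    exact h
  · intro P x hx hP
    have h := Pool.Agent.PG.all_PRD (2 ^ m) m P x (by positivity) hm (dvd_refl _) hx hP
    rw [Nat.cast_pow, Nat.cast_ofNat] at h
    exact h

end Pool.Agent.Results.MP_37e5fa_nt.MultiplicityGap
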