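import Pool.Agent.helper39.NR.Wrap

set_option autoImplicit false

namespace Pool.Agent.Results.MP_37e5fa_nt.UniqueFactorization

open NumberField

/-- The ideal `I` becomes principal in some cyclotomic field `L = Q(zeta_n)` containing `K`. -/
def BecomesPrincipal {K : Type} [Field K] [NumberField K] (I : Ideal (𝓞 K)) : Prop :=
  ∃ (n : ℕ) (L : Type) (_ : Field L) (_ : NumberField L) (_ : IsCyclotomicExtension {n} ℚ L) (_ : Algebra K L),
    0 < n ∧ (I.map (algebraMap (𝓞 K) (𝓞 L))).IsPrincipal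

/-- Any two factorisations of `x` into irreducibles agree up to order and units. -/
def FactorsUniquely {R : Type} [CommRing R] (x : R) : Prop :=
  ∀ s t : Multiset R, (∀ a ∈ s, Irreducible a) → (∀ a ∈ t, Irreducible a) → Associated s.prod x →
    Associated t.prod x → Multiset.Rel Associated s t

/-- `I * A` is principal for some ideal `A ≠ 0` with `conj(A) = A`. -/
def MinusTrivial {K : Type} [Field K] [NumberField K] (conj : 𝓞 K ≃+* 𝓞 K) (I : Ideal (𝓞 K)) : Prop :=
  ∃ A : Ideal (𝓞 K), A ≠ ⊥ ∧ A.map conj = A ∧ (I * A).IsPrincipal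

/-- `I` is a product of at most `r` prime ideals containing `F`, or it contains a product of at most `r` numbers
`2 - z^t`, `t` odd. -/
def Short {K : Type} [Field K] [NumberField K] (F r : ℕ) (z : 𝓞 K) (I : Ideal (𝓞 K)) : Prop :=
  (∃ S : Multiset (Ideal (𝓞 K)), Multiset.card S ≤ r ∧ (∀ P ∈ S, P.IsPrime ∧ (F : 𝓞 K) ∈ P) ∧ I = S.prod) ∨
    ∃ s : Multiset ℕ, Multiset.card s ≤ r ∧ (∀ t ∈ s, Odd t) ∧ (s.map fun t => 2 - z ^ t).prod ∈ I

/-- **Unique factorisation of the Fermat number `F_m` in `Z[zeta_(2^(m+1))]` and its primality.**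
Let `z` be a primitive `2^(m+1)`-th root of unity in the ring of integers of `K = Q(zeta_(2^(m+1)))`.  Then `2 - z` is
irreducible; an ideal containing `2 - z` which becomes principal in some cyclotomic field is `(1)` or `(2 - z)`; and the
following are equivalent: `F_m = 2^(2^m) + 1` is prime; `2 - z` is a prime element; `F_m` factors uniquely into
irreducibles; some prime ideal containing `F_m` is principal; some prime ideal containing `F_m` becomes principal in some
cyclotomic field.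

More generally let `r ≥ 1`, `(32 r)^(9^r + r) < 2^m`, and let `conj` be the complex conjugation.  An ideal `I` which is a
product of at most `r` prime ideals containing `F_m`, or which contains a product of at most `r` numbers `2 - z^t`, `t` odd,
is trivial in the class group modulo the classes of the invariant ideals if and only if
`I = (2 - z^(t_1)) ... (2 - z^(t_k)) * J * conj(J)` with odd `t_i`; this is the case if `I` becomes principal in some
cyclotomic field.  `F_m` is prime if and only if `P^j` is trivial in this sense for some prime ideal `P` containing `F_m`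
and some `1 ≤ j ≤ r`; and if the norm of an integer of `K` is, up to sign, a product `n` of at most `r` primes dividing
`F_m`, then `n = k^2` or `n = F_m * k^2`. -/
theorem result (m : ℕ) (K : Type) [Field K] [NumberField K] [IsCyclotomicExtension {2 ^ (m + 1)} ℚ K] (z : 𝓞 K)
    (hz : IsPrimitiveRoot z (2 ^ (m + 1))) :
    Irreducible (2 - z) ∧
    (∀ I : Ideal (𝓞 K), 2 - z ∈ I → BecomesPrincipal I → I = ⊤ ∨ I = Ideal.span {2 - z}) ∧
    List.TFAE [Nat.Prime (2 ^ 2 ^ m + 1), Prime (2 - z), FactorsUniquely ((2 ^ 2 ^ m + 1 : ℕ) : 𝓞 K),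
      ∃ P : Ideal (𝓞 K), P.IsPrime ∧ ((2 ^ 2 ^ m + 1 : ℕ) : 𝓞 K) ∈ P ∧ P.IsPrincipal,
      ∃ P : Ideal (𝓞 K), P.IsPrime ∧ ((2 ^ 2 ^ m + 1 : ℕ) : 𝓞 K) ∈ P ∧ BecomesPrincipal P] ∧
    ∃ conj : 𝓞 K ≃+* 𝓞 K, conj z * z = 1 ∧ ∀ r : ℕ, 1 ≤ r → (32 * r) ^ (9 ^ r + r) < 2 ^ m →
      (∀ I : Ideal (𝓞 K), Short (2 ^ 2 ^ m + 1) r z I →
        (MinusTrivial conj I ↔ ∃ (t : Multiset ℕ) (J : Ideal (𝓞 K)), (∀ i ∈ t, Odd i) ∧
          I = (t.map fun i => Ideal.span {2 - z ^ i}).prod * (J * J.map conj)) ∧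
        (BecomesPrincipal I → MinusTrivial conj I)) ∧
      (Nat.Prime (2 ^ 2 ^ m + 1) ↔ ∃ P : Ideal (𝓞 K), P.IsPrime ∧ ((2 ^ 2 ^ m + 1 : ℕ) : 𝓞 K) ∈ P ∧
        ∃ j : ℕ, 1 ≤ j ∧ j ≤ r ∧ MinusTrivial conj (P ^ j)) ∧
      (∀ n : ℕ, n ≠ 0 → n.primeFactorsList.length ≤ r → (∀ p : ℕ, p.Prime → p ∣ n → p ∣ 2 ^ 2 ^ m + 1) →
        (∃ x : 𝓞 K, (Algebra.norm ℤ x).natAbs = n) → ∃ k : ℕ, n = k ^ 2 ∨ n = (2 ^ 2 ^ m + 1) * k ^ 2) := by
  obtain ⟨fp1, tfa, -, -⟩ := Pool.Agent.UFG.main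
  obtain ⟨irr, -, -, -, -⟩ := Pool.Agent.UF.main
  exact ⟨irr m K z hz, fun I h1 h2 => fp1 m K z hz I (Ideal.dvd_span_singleton.mpr h1) h2, tfa m K z hz,
    Pool.Agent.helper39.NR.main m K z hz⟩

end Pool.Agent.Results.MP_37e5fa_nt.UniqueFactorization
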