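import Pool.Agent.helper97.GD.All

set_option autoImplicit false

/-!
# True universal sentences do not prove that infinitely many Fermat numbers are composite

`UnivTh` is the set of all universal first order sentences true in the integers, in the language `Lb` with `0, 1, -, +, *, <`,
`2 ^ x`, case distinction, the floor of `x / c` for every constant `c`, the floor of `x / 2 ^ y`, all bitwise Boolean
operations, number and sum of the binary digits. The last part is the reason, for every large `m`: a term with arguments of at most `ε 2 ^ m` binary digits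
has only small common factors with `2 ^ (2 ^ m) + 1`, or is a multiple of it.
-/

namespace Pool.Agent.Results.MP_37e5fa_nt.UniversalSentences

open FirstOrder FirstOrder.Language Pool.Agent.UnivT Pool.Agent.GD

theorem result :
    ¬ (UnivTh ⊨ᵇ infinitelyManyComposite) ∧
    (ℤ ⊨ infinitelyManyComposite ↔ {n : ℕ | ¬ (Nat.fermatNumber n).Prime}.Infinite) ∧
    (∀ (n : ℕ) (t : Lb.Term (Fin n)) (δ : ℝ), 0 < δ → ∃ (ε : ℝ) (m₀ : ℕ), 0 < ε ∧
      ∀ (m : ℕ) (v : Fin n → ℤ), m₀ ≤ m → (∀ i, |(v i : ℝ)| ≤ (2 : ℝ) ^ (ε * 2 ^ m)) →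
        (2 : ℤ) ^ (2 ^ m) + 1 ∣ t.realize v ∨
        ((Int.gcd (t.realize v) (2 ^ (2 ^ m) + 1) : ℕ) : ℝ) ≤ ((2 : ℝ) ^ (2 ^ m) + 1) ^ δ) :=
  ⟨A_GFI.1, pf_MEA.1, A_GCP⟩

end Pool.Agent.Results.MP_37e5fa_nt.UniversalSentences
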